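import Pool.Agent.W751.RR.Stm
import Pool.Agent.H713R5.QJ.TAF

/-! RR-AR1: area of the window. -/

set_option autoImplicit false

open Polynomial Filter Topology MeasureTheory Metric Set

namespace Pool.Agent.W12.RR

open Pool.Agent.W751.RR

theorem ar1 : S_AR1 := by
  intro F N hN hF l R η hl hR hη
  obtain ⟨S, hS⟩ : ∃ S, S = {w : ℂ | l ≤ ‖F.eval w‖ ∧ ‖F.eval w‖ ≤ R ∧
    η * N * ‖F.eval w‖ ≤ ‖(derivative F).eval w‖} := ⟨_, rfl⟩
  rw [← hS]
  obtain ⟨E, hE⟩ : ∃ E : Set ℂ, E = {v : ℂ | l ≤ ‖v‖ ∧ ‖v‖ ≤ R} := ⟨_, rfl⟩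
  have hEm : MeasurableSet E := by
    rw [hE]
    exact (measurableSet_le measurable_const measurable_norm).inter
      (measurableSet_le measurable_norm measurable_const)
  have hN0 : (0 : ℝ) < N := by exact_mod_cast hN
  have hSm : MeasurableSet S := by
    rw [hS]
    have hc : Measurable (fun w : ℂ => ‖F.eval w‖) := F.continuous.norm.measurable
    have hc' : Measurable (fun w : ℂ => ‖(derivative F).eval w‖) :=
      (derivative F).continuous.norm.measurable
    exact (measurableSet_le measurable_const hc).inter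
      ((measurableSet_le hc measurable_const).inter (measurableSet_le (hc.const_mul _) hc'))
  have haf := Pool.Agent.H713R5.QJ.af_holds F (fun _ => 1) E (by rw [hF]; exact hN)
    measurable_const hEm
  have hSE : S ⊆ (Pool.Agent.H713R5.QJ.ev F) ⁻¹' E := by
    intro w hw
    rw [hS, Set.mem_ofPred_eq] at hw
    rw [Set.mem_preimage, hE, Set.mem_ofPred_eq]
    exact ⟨hw.1, hw.2.1⟩
  -- lower bound on S
  have h1 : ENNReal.ofReal ((η * N * l) ^ 2) * volume S ≤
      ∫⁻ z in (Pool.Agent.H713R5.QJ.ev F) ⁻¹' E, 1 * ENNReal.ofReal (‖(derivative F).eval z‖ ^ 2) := by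
    calc ENNReal.ofReal ((η * N * l) ^ 2) * volume S = ∫⁻ _ in S, ENNReal.ofReal ((η * N * l) ^ 2) := by
          rw [setLIntegral_const]
      _ ≤ ∫⁻ z in S, 1 * ENNReal.ofReal (‖(derivative F).eval z‖ ^ 2) := by
          apply setLIntegral_mono' hSm
          intro z hz
          rw [one_mul]
          apply ENNReal.ofReal_le_ofReal
          rw [hS, Set.mem_ofPred_eq] at hz
          apply pow_le_pow_left₀ (by positivity)
          refine le_trans ?_ hz.2.2
          exact mul_le_mul_of_nonneg_left hz.1 (by positivity)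
      _ ≤ _ := lintegral_mono_set hSE
  -- upper bound
  have h2 : ∫⁻ w in E, ∑ _ζ ∈ (F - C w).roots.toFinset, (1 : ENNReal) ≤
      ENNReal.ofReal (N * (Real.pi * R ^ 2)) := by
    calc ∫⁻ w in E, ∑ _ζ ∈ (F - C w).roots.toFinset, (1 : ENNReal)
        ≤ ∫⁻ _ in E, (N : ENNReal) := by
          apply lintegral_mono
          intro w
          simp only [Finset.sum_const, nsmul_eq_mul, mul_one]
          have h3 : (F - C w).roots.toFinset.card ≤ N := by
            refine (Multiset.toFinset_card_le _).trans ((card_roots' _).trans ?_)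
            rw [natDegree_sub_C, hF]
          exact_mod_cast h3
      _ = (N : ENNReal) * volume E := by rw [setLIntegral_const]
      _ ≤ (N : ENNReal) * volume (closedBall (0 : ℂ) R) := by
          gcongr
          intro v hv
          rw [hE, Set.mem_ofPred_eq] at hv
          rw [mem_closedBall_zero_iff]
          exact hv.2
      _ = ENNReal.ofReal (N * (Real.pi * R ^ 2)) := by
          rw [Complex.volume_closedBall, ENNReal.ofReal_mul hN0.le, ENNReal.ofReal_natCast]
          congr 1
          rw [mul_comm Real.pi, ENNReal.ofReal_mul (by positivity), ENNReal.ofReal_pow hR.le]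
          congr 1
          exact (ENNReal.ofReal_coe_nnreal (p := NNReal.pi)).symm
  rw [← haf] at h1
  have h4 := h1.trans h2
  have h5 : 0 < (η * N * l) ^ 2 := by positivity
  have h6 : volume S ≤ ENNReal.ofReal (N * (Real.pi * R ^ 2)) / ENNReal.ofReal ((η * N * l) ^ 2) := by
    rw [ENNReal.le_div_iff_mul_le (Or.inl (ENNReal.ofReal_pos.mpr h5).ne')
      (Or.inl ENNReal.ofReal_ne_top), mul_comm]
    exact h4
  refine h6.trans (le_of_eq ?_)
  rw [← ENNReal.ofReal_div_of_pos h5]
  congr 1
  field_simp

end Pool.Agent.W12.RR
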