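import Pool.Agent.W751.RR.Stm

/-! RR-POTD: a second moment. -/

set_option autoImplicit false

open Polynomial Filter Topology MeasureTheory Metric Set

namespace Pool.Agent.W12.RR

open Pool.Agent.W751.RR

theorem pt {x D : ℝ} (hx : 0 ≤ x) (hxD : x ≤ D) (hD : 1 ≤ D) :
    (Real.log x) ^ 2 * (x ^ (1 / 2 : ℝ) + x ^ (-(1 / 2) : ℝ) + 1) ≤ D ^ 2 * (D + 2) + 48 * x⁻¹ := by
  rcases hx.eq_or_lt with rfl | hx0
  · have h : 0 ≤ D ^ 2 * (D + 2) := by positivity
    rw [Real.log_zero, inv_zero, mul_zero, add_zero]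
    simpa using h
  rcases le_or_gt 1 x with h1 | h1
  · have hl0 : 0 ≤ Real.log x := Real.log_nonneg h1
    have hl : Real.log x ≤ D := by
      have := Real.log_le_sub_one_of_pos hx0
      linarith
    have h2 : x ^ (1 / 2 : ℝ) ≤ D := by
      calc x ^ (1 / 2 : ℝ) ≤ x ^ (1 : ℝ) := Real.rpow_le_rpow_of_exponent_le h1 (by norm_num)
        _ = x := Real.rpow_one x
        _ ≤ D := hxD
    have h3 : x ^ (-(1 / 2) : ℝ) ≤ 1 := Real.rpow_le_one_of_one_le_of_nonpos h1 (by norm_num)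
    have h4 : (Real.log x) ^ 2 ≤ D ^ 2 := pow_le_pow_left₀ hl0 hl 2
    have h5 : 0 ≤ x ^ (1 / 2 : ℝ) := Real.rpow_nonneg hx _
    have h6 : 0 ≤ x ^ (-(1 / 2) : ℝ) := Real.rpow_nonneg hx _
    have h7 : (Real.log x) ^ 2 * (x ^ (1 / 2 : ℝ) + x ^ (-(1 / 2) : ℝ) + 1) ≤ D ^ 2 * (D + 2) :=
      mul_le_mul h4 (by linarith) (by linarith) (by positivity)
    have h8 : 0 ≤ x⁻¹ := inv_nonneg.mpr hx
    linarith
  · obtain ⟨y, hy⟩ : ∃ y, y = x ^ (-(1 / 4) : ℝ) := ⟨_, rfl⟩
    have hy1 : 1 ≤ y := by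
      rw [hy]
      exact Real.one_le_rpow_of_pos_of_le_one_of_nonpos hx0 h1.le (by norm_num)
    have hy2 : x ^ (-(1 / 2) : ℝ) = y ^ 2 := by
      rw [hy, ← Real.rpow_natCast, ← Real.rpow_mul hx]
      norm_num
    have hy4 : x⁻¹ = y ^ 4 := by
      rw [hy, ← Real.rpow_natCast, ← Real.rpow_mul hx, ← Real.rpow_neg_one]
      norm_num
    have hly : Real.log x = -(4 * Real.log y) := by
      rw [hy, Real.log_rpow hx0]
      ring
    have hly0 : 0 ≤ Real.log y := Real.log_nonneg hy1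
    have hly1 : Real.log y ≤ y := by
      have := Real.log_le_sub_one_of_pos (show 0 < y by linarith)
      linarith
    have h2 : x ^ (1 / 2 : ℝ) ≤ 1 := Real.rpow_le_one hx h1.le (by norm_num)
    have h5 : 0 ≤ x ^ (1 / 2 : ℝ) := Real.rpow_nonneg hx _
    have h3 : (Real.log x) ^ 2 ≤ 16 * y ^ 2 := by
      rw [hly]
      nlinarith [pow_le_pow_left₀ hly0 hly1 2]
    have h4 : x ^ (1 / 2 : ℝ) + x ^ (-(1 / 2) : ℝ) + 1 ≤ 3 * y ^ 2 := by
      rw [hy2]
      nlinarith
    have h7 : (Real.log x) ^ 2 * (x ^ (1 / 2 : ℝ) + x ^ (-(1 / 2) : ℝ) + 1) ≤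
        16 * y ^ 2 * (3 * y ^ 2) := mul_le_mul h3 h4 (by rw [hy2]; positivity) (by positivity)
    have h8 : 0 ≤ D ^ 2 * (D + 2) := by positivity
    rw [hy4]
    nlinarith

theorem inv_int (r : ℝ) : ∫⁻ u in ball (0 : ℂ) r, ENNReal.ofReal (‖u‖⁻¹) ≠ ⊤ := by
  have h : IntegrableOn (fun x : ℂ => (fun y : ℝ => y⁻¹) ‖x‖) (ball (0 : ℂ) r) volume := by
    rw [integrableOn_fun_norm_addHaar (μ := (volume : Measure ℂ)) (f := fun y : ℝ => y⁻¹)]
    have h1 : IntegrableOn (fun _ : ℝ => (1 : ℝ)) (Ioo 0 r) :=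
      integrableOn_const (by rw [Real.volume_Ioo]; exact ENNReal.ofReal_ne_top) (by simp)
    refine h1.congr_fun ?_ measurableSet_Ioo
    intro y hy
    have hy0 : y ≠ 0 := hy.1.ne'
    simp only [Complex.finrank_real_complex, smul_eq_mul]
    norm_num
    rw [mul_inv_cancel₀ hy0]
  have h2 := h.2
  rw [hasFiniteIntegral_iff_ofReal] at h2
  · exact h2.ne
  · exact Eventually.of_forall fun x => inv_nonneg.mpr (norm_nonneg x)

theorem potd : S_POTD := by
  intro ρ B hρ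
  obtain ⟨D, hD⟩ : ∃ D, D = |B| + ρ + 1 := ⟨_, rfl⟩
  have hD1 : 1 ≤ D := by rw [hD]; have := abs_nonneg B; linarith
  obtain ⟨I, hI⟩ : ∃ I, I = ∫⁻ u in ball (0 : ℂ) D, ENNReal.ofReal (‖u‖⁻¹) := ⟨_, rfl⟩
  have hItop : I ≠ ⊤ := by rw [hI]; exact inv_int D
  obtain ⟨Q, hQ⟩ : ∃ Q, Q = (volume (closedBall (0 : ℂ) ρ))⁻¹ *
    (ENNReal.ofReal (D ^ 2 * (D + 2)) * volume (closedBall (0 : ℂ) ρ) + ENNReal.ofReal 48 * I) := ⟨_, rfl⟩
  have hv0 : volume (closedBall (0 : ℂ) ρ) ≠ 0 := (Metric.measure_closedBall_pos volume 0 hρ).ne'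
  have hv1 : volume (closedBall (0 : ℂ) ρ) ≠ ⊤ := measure_closedBall_lt_top.ne
  have hQtop : Q ≠ ⊤ := by
    rw [hQ]
    apply ENNReal.mul_ne_top (ENNReal.inv_ne_top.mpr hv0)
    exact ENNReal.add_ne_top.mpr ⟨ENNReal.mul_ne_top ENNReal.ofReal_ne_top hv1,
      ENNReal.mul_ne_top ENNReal.ofReal_ne_top hItop⟩
  refine ⟨Q.toReal + 1, by positivity, ?_⟩
  intro w hw
  have hle : ∫⁻ z, ENNReal.ofReal ((Real.log ‖w - z‖) ^ 2 *
    (‖w - z‖ ^ (1 / 2 : ℝ) + ‖w - z‖ ^ (-(1 / 2) : ℝ) + 1)) ∂(m1 ρ) ≤ Q := by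
    rw [m1, lintegral_smul_measure, hQ, smul_eq_mul]
    gcongr
    calc ∫⁻ z in closedBall (0 : ℂ) ρ, ENNReal.ofReal ((Real.log ‖w - z‖) ^ 2 *
          (‖w - z‖ ^ (1 / 2 : ℝ) + ‖w - z‖ ^ (-(1 / 2) : ℝ) + 1))
        ≤ ∫⁻ z in closedBall (0 : ℂ) ρ, (ENNReal.ofReal (D ^ 2 * (D + 2)) +
          ENNReal.ofReal 48 * ENNReal.ofReal (‖w - z‖⁻¹)) := by
          apply setLIntegral_mono' measurableSet_closedBall
          intro z hz
          rw [mem_closedBall_zero_iff] at hz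
          rw [← ENNReal.ofReal_mul (by norm_num), ← ENNReal.ofReal_add (by positivity) (by positivity)]
          apply ENNReal.ofReal_le_ofReal
          apply pt (norm_nonneg _) _ hD1
          have := norm_sub_le w z
          have h2 := le_abs_self B
          rw [hD]
          linarith
      _ = ENNReal.ofReal (D ^ 2 * (D + 2)) * volume (closedBall (0 : ℂ) ρ) +
          ENNReal.ofReal 48 * ∫⁻ z in closedBall (0 : ℂ) ρ, ENNReal.ofReal (‖w - z‖⁻¹) := by
          rw [lintegral_add_left measurable_const, setLIntegral_const,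
            lintegral_const_mul]
          exact (((measurable_const.sub measurable_id).norm).inv).ennreal_ofReal
      _ ≤ _ := by
          gcongr
          rw [hI]
          rw [← lintegral_indicator measurableSet_closedBall, ← lintegral_indicator measurableSet_ball]
          refine le_trans ?_ (le_of_eq (lintegral_sub_left_eq_self
            ((ball (0 : ℂ) D).indicator fun u => ENNReal.ofReal (‖u‖⁻¹)) w))
          apply lintegral_mono
          intro z
          beta_reduce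
          by_cases hz : z ∈ closedBall (0 : ℂ) ρ
          · rw [indicator_of_mem hz, indicator_of_mem]
            rw [mem_ball_zero_iff]
            rw [mem_closedBall_zero_iff] at hz
            have := norm_sub_le w z
            have h2 := le_abs_self B
            rw [hD]
            linarith
          · rw [indicator_of_notMem hz]
            exact zero_le
  refine hle.trans ?_
  rw [← ENNReal.ofReal_toReal hQtop]
  apply ENNReal.ofReal_le_ofReal
  rw [ENNReal.toReal_ofReal ENNReal.toReal_nonneg]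
  linarith

end Pool.Agent.W12.RR
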